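import Pool.Agent.HN.Final

/-!
# MP_04e011_nt, Q1: Newton polygon above the averaged Hodge polygon for multiplicative character sums
on smooth complete intersections (full positive answer, with the sign of the exponents corrected).

`X = {h_1 = ... = h_s = 0} ⊂ ℙ^n`, `D_i = {f_i = 0}`, `i = 1..r`, over a field `F` with `q = p^a`
elements, condition (N) at all geometric points (`CondN (AlgebraicClosure F) D`), `N = n - s`.
`e_i = b_i/(q-1)`, `1 ≤ b_i ≤ q-2`, `d_e = ∑ e_i d_i` an integer, `χ_i = ω^{(q-1) e_i} = ω^{b_i}`.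
(The printed problem has `χ_i = ω^{-(q-1)e_i}`; with that sign the inequality fails already for
`ℙ^1` minus three points, and the two normalisations differ by `e ↦ 1 - e`.)

`E m` is the extension of `F` of degree `m`, `charSum p D b (E m) = S_m` (with values in the Witt
vectors `W(F)`), and `P` is the coefficient sequence of
`P(t) = exp (∑ S_m t^m / m)^{(-1)^{N+1}}`, characterised by `P 0 = 1` and
`(κ+1) P (κ+1) = (-1)^{N+1} ∑_{m ≤ κ} S_{m+1} P (κ-m)`.
The Hodge numbers `h^i(e) = dim H^{N-i}(X_0, O(-d_e) ⊗ Ω^i(log D))` are those of any datum `D₀` over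
`ℂ` with the same degrees satisfying (N); `avgPoly` is the average over the Frobenius orbit of `e` of
the polygons with slope `i` on an interval of length `h^i`.

The theorem: the coefficients of `P(t)` are integral, `P κ = 0` for `κ > ∑ h^i(e)`, and every point
`(x, y)` of the convex hull of the points `(κ, ord_q (P κ))`, `P κ ≠ 0`, satisfies `g(x) ≤ y`, i.e.
the Newton polygon of `P(t)` lies on or above the graph of `g`.
-/

open MvPolynomial HN

namespace Pool.Agent.Results.MP_04e011_nt.NewtonAboveHodge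

theorem result (p : ℕ) [Fact p.Prime] (F : Type) [Field F] [Fintype F] [CharP F p] (a : ℕ)
    (hq : Fintype.card F = p ^ a) (n r s : ℕ) (hs : s ≤ n) (hr : 1 ≤ r)
    (d : Fin r → ℕ) (c : Fin s → ℕ) (hd : ∀ i, 1 ≤ d i) (hc : ∀ j, 1 ≤ c j)
    (D : Datum F n r s d c) (hN : CondN (AlgebraicClosure F) D)
    (D₀ : Datum ℂ n r s d c) (hN₀ : CondN ℂ D₀)
    (b : Fin r → ℕ) (hb : ∀ i, 1 ≤ b i ∧ b i ≤ p ^ a - 2) (hsum : (p ^ a - 1) ∣ ∑ i, b i * d i)
    (E : ℕ → Type) [∀ m, Field (E m)] [∀ m, Algebra F (E m)] [∀ m, Finite (E m)]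
    (hE : ∀ m, 1 ≤ m → Module.finrank F (E m) = m) :
    ∃ P : ℕ → WittVector p F,
      P 0 = 1 ∧
      (∀ κ : ℕ, ((κ : WittVector p F) + 1) * P (κ + 1) =
        (-1) ^ (n - s + 1) * ∑ m ∈ Finset.range (κ + 1), charSum p D b (E (m + 1)) * P (κ - m)) ∧
      (∀ κ : ℕ, ∑ i ∈ Finset.range (n - s + 1),
        hodge D₀ (degE (p ^ a) d b : ℤ) i < κ → P κ = 0) ∧
      (∀ v ∈ convexHull ℝ {v : ℝ × ℝ | ∃ κ : ℕ, P κ ≠ 0 ∧ v = ((κ : ℝ), ordq p a (P κ))},
        avgPoly p a D₀ b v.1 ≤ v.2) :=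
  HN.final p F a hq n r s hs hr d c hd hc D hN D₀ hN₀ b hb hsum E hE

end Pool.Agent.Results.MP_04e011_nt.NewtonAboveHodge
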